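import Pool.Agent.Q13.CF.D5

/-!
# Project CF (helper7): ambiguous classes (JOB AMB)

Adapted from `Pool/Agent/Q132/CJ/Amb.lean`, `Pool/Agent/Q132/CJ/Amb2.lean` (helper132).
-/

set_option autoImplicit false
set_option linter.unusedSectionVars false

namespace Pool.Agent.Q79.CF

open Polynomial Pool.Agent.Q7.CF
open Pool.Agent.Q13.CF (rf_ext unit_const wi alg_inj)

section Sim

variable {B : Type} [CommRing B] [IsDomain B]

theorem sim_refl (I : Ideal B) : Sim I I := ⟨1, 1, one_ne_zero, one_ne_zero, rfl⟩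

theorem sim_symm {I J : Ideal B} (h : Sim I J) : Sim J I := by
  obtain ⟨a, b, ha, hb, h⟩ := h
  exact ⟨b, a, hb, ha, h.symm⟩

theorem sim_trans {I J K : Ideal B} (h : Sim I J) (h' : Sim J K) : Sim I K := by
  obtain ⟨a, b, ha, hb, h⟩ := h
  obtain ⟨c, d, hc, hd, h'⟩ := h'
  refine ⟨a * c, b * d, mul_ne_zero ha hc, mul_ne_zero hb hd, ?_⟩
  rw [← Ideal.span_singleton_mul_span_singleton, ← Ideal.span_singleton_mul_span_singleton]
  calc Ideal.span {a} * Ideal.span {c} * I = Ideal.span {c} * (Ideal.span {a} * I) := by ring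
    _ = Ideal.span {b} * (Ideal.span {c} * J) := by rw [h]; ring
    _ = Ideal.span {b} * Ideal.span {d} * K := by rw [h']; ring

theorem sim_mul {I J I' J' : Ideal B} (h : Sim I J) (h' : Sim I' J') : Sim (I * I') (J * J') := by
  obtain ⟨a, b, ha, hb, h⟩ := h
  obtain ⟨c, d, hc, hd, h'⟩ := h'
  refine ⟨a * c, b * d, mul_ne_zero ha hc, mul_ne_zero hb hd, ?_⟩
  rw [← Ideal.span_singleton_mul_span_singleton, ← Ideal.span_singleton_mul_span_singleton]
  calc Ideal.span {a} * Ideal.span {c} * (I * I') = (Ideal.span {a} * I) * (Ideal.span {c} * I') := by ring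
    _ = Ideal.span {b} * Ideal.span {d} * (J * J') := by rw [h, h']; ring

theorem sim_pow {I J : Ideal B} (h : Sim I J) (n : ℕ) : Sim (I ^ n) (J ^ n) := by
  induction n with
  | zero => rw [pow_zero, pow_zero]; exact sim_refl _
  | succ n ih => rw [pow_succ, pow_succ]; exact sim_mul ih h

theorem sim_map {B' : Type} [CommRing B'] {I J : Ideal B} (f : B →+* B') (hf : Function.Injective f)
    (h : Sim I J) : Sim (I.map f) (J.map f) := by
  obtain ⟨a, b, ha, hb, h⟩ := h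
  refine ⟨f a, f b, fun e => ha (hf (by rw [e, map_zero])), fun e => hb (hf (by rw [e, map_zero])), ?_⟩
  have h2 := congrArg (Ideal.map f) h
  rwa [Ideal.map_mul, Ideal.map_mul, Ideal.map_span, Ideal.map_span, Set.image_singleton,
    Set.image_singleton] at h2

end Sim

section

variable (p r : ℕ) {L : Type} [Field L] (D : L)

theorem sF_alg (ζ : L) (h : ζ ^ p = 1) (a : L) :
    sF p D ζ h (algebraMap L (RF p D) a) = algebraMap L (RF p D) a := sF_of p D ζ h (C a)

theorem sF_mul (ζ ζ' : L) (h : ζ ^ p = 1) (h' : ζ' ^ p = 1) (h2 : (ζ * ζ') ^ p = 1) (b : RF p D) :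
    sF p D (ζ * ζ') h2 b = sF p D ζ h (sF p D ζ' h' b) := by
  have e : ((sF p D (ζ * ζ') h2 : RF p D →ₐ[L[X]] RF p D) : RF p D →+* RF p D) =
      ((sF p D ζ h : RF p D →ₐ[L[X]] RF p D) : RF p D →+* RF p D).comp
        ((sF p D ζ' h' : RF p D →ₐ[L[X]] RF p D) : RF p D →+* RF p D) := by
    apply rf_ext
    · intro a
      change sF p D (ζ * ζ') h2 _ = sF p D ζ h (sF p D ζ' h' _)
      rw [sF_alg, sF_alg, sF_alg]
    · change sF p D (ζ * ζ') h2 _ = sF p D ζ h (sF p D ζ' h' _)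
      rw [sF_XF, sF_XF, sF_XF]
    · change sF p D (ζ * ζ') h2 _ = sF p D ζ h (sF p D ζ' h' _)
      rw [sF_YF, sF_YF, map_mul (sF p D ζ h), sF_alg, sF_YF, map_mul]
      ring
  exact DFunLike.congr_fun e b

theorem sF_one (h : (1 : L) ^ p = 1) (b : RF p D) : sF p D 1 h b = b := by
  have e : ((sF p D 1 h : RF p D →ₐ[L[X]] RF p D) : RF p D →+* RF p D) = RingHom.id _ := by
    apply rf_ext
    · intro a
      exact sF_alg p D 1 h a
    · exact sF_XF p D 1 h
    · refine (sF_YF p D 1 h).trans ?_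
      rw [map_one, one_mul]
      rfl
  exact DFunLike.congr_fun e b

theorem sg_mul (ζ ζ' : L) (h : ζ ^ p = 1) (h' : ζ' ^ p = 1) (h2 : (ζ * ζ') ^ p = 1) (b : BQ p r D) :
    sg p r D (ζ * ζ') h2 b = sg p r D ζ h (sg p r D ζ' h' b) :=
  Subtype.ext (sF_mul p D ζ ζ' h h' h2 (b : RF p D))

theorem sg_one (h : (1 : L) ^ p = 1) (b : BQ p r D) : sg p r D 1 h b = b :=
  Subtype.ext (sF_one p D h (b : RF p D))

theorem sg_alg (ζ : L) (h : ζ ^ p = 1) (a : L) :
    sg p r D ζ h (algebraMap L (BQ p r D) a) = algebraMap L (BQ p r D) a :=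
  Subtype.ext (sF_alg p D ζ h a)

theorem sg_uu (ζ : L) (h : ζ ^ p = 1) : sg p r D ζ h (uu p r D) = uu p r D := by
  refine Subtype.ext ?_
  change sF p D ζ h (XF p D ^ p) = XF p D ^ p
  rw [map_pow, sF_XF]

theorem sg_aeval (ζ : L) (h : ζ ^ p = 1) (g : L[X]) :
    sg p r D ζ h (aeval (uu p r D) g) = aeval (uu p r D) g := by
  have h1 : (sg p r D ζ h).comp ((aeval (uu p r D) : L[X] →ₐ[L] BQ p r D) : L[X] →+* BQ p r D) =
      ((aeval (uu p r D) : L[X] →ₐ[L] BQ p r D) : L[X] →+* BQ p r D) := by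
    apply Polynomial.ringHom_ext
    · intro a
      change sg p r D ζ h (aeval (uu p r D) (C a)) = aeval (uu p r D) (C a)
      rw [aeval_C, sg_alg]
    · change sg p r D ζ h (aeval (uu p r D) X) = aeval (uu p r D) X
      rw [aeval_X, sg_uu]
  exact DFunLike.congr_fun h1 g

theorem sg_wi (ζ : L) (h : ζ ^ p = 1) (i : Fin p) :
    sg p r D ζ h (wi p D r i) = algebraMap L (BQ p r D) (ζ ^ (r * (i : ℕ) % p)) * wi p D r i := by
  refine Subtype.ext ?_
  change sF p D ζ h (XF p D ^ (i : ℕ) * YF p D ^ (r * (i : ℕ) % p)) =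
    algebraMap L (RF p D) (ζ ^ (r * (i : ℕ) % p)) * (XF p D ^ (i : ℕ) * YF p D ^ (r * (i : ℕ) % p))
  rw [map_mul, map_pow, map_pow, sF_XF, sF_YF, mul_pow, map_pow]
  ring

theorem wi_pow (i : Fin p) :
    wi p D r i ^ p = uu p r D ^ (i : ℕ) * ww p r D ^ (r * (i : ℕ) % p) := by
  refine Subtype.ext ?_
  change (XF p D ^ (i : ℕ) * YF p D ^ (r * (i : ℕ) % p)) ^ p =
    (XF p D ^ p) ^ (i : ℕ) * (YF p D ^ p) ^ (r * (i : ℕ) % p)
  rw [mul_pow, ← pow_mul, ← pow_mul, ← pow_mul, ← pow_mul, mul_comm (i : ℕ) p, mul_comm (r * (i : ℕ) % p) p]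

theorem sg_t1 (ζ : L) (h : ζ ^ p = 1) (b : BQ p r D) (hb : b ∈ t1 p r D) : sg p r D ζ h b ∈ t1 p r D := by
  have h1 : (b : RF p D) ∈ Ideal.span {XF p D} := hb
  change (sg p r D ζ h b : RF p D) ∈ Ideal.span {XF p D}
  rw [sg_val]
  obtain ⟨c, hc⟩ := Ideal.mem_span_singleton.1 h1
  rw [hc, map_mul, sF_XF]
  exact Ideal.mem_span_singleton.2 (dvd_mul_right _ _)

theorem sg_t2 (ζ : L) (h : ζ ^ p = 1) (b : BQ p r D) (hb : b ∈ t2 p r D) : sg p r D ζ h b ∈ t2 p r D := by
  have h1 : (b : RF p D) ∈ Ideal.span {YF p D} := hb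
  change (sg p r D ζ h b : RF p D) ∈ Ideal.span {YF p D}
  rw [sg_val]
  obtain ⟨c, hc⟩ := Ideal.mem_span_singleton.1 h1
  rw [hc, map_mul, sF_YF, mul_assoc]
  exact Ideal.mem_span_singleton.2 (Dvd.dvd.mul_left (dvd_mul_right _ _) _)

theorem sg_map_map (η η' : L) (h : η ^ p = 1) (h' : η' ^ p = 1) (h2 : (η * η') ^ p = 1)
    (K : Ideal (BQ p r D)) : K.map (sg p r D (η * η') h2) = (K.map (sg p r D η' h')).map (sg p r D η h) := by
  rw [Ideal.map_map]
  congr 1
  exact RingHom.ext fun b => sg_mul p r D η η' h h' h2 b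

theorem sg_map_one (h : (1 : L) ^ p = 1) (K : Ideal (BQ p r D)) : K.map (sg p r D 1 h) = K := by
  have e : sg p r D 1 h = RingHom.id _ := RingHom.ext fun b => sg_one p r D h b
  rw [e, Ideal.map_id]

theorem stable_eq (P : Ideal (BQ p r D)) (hP : ∀ (η : L) (h : η ^ p = 1), ∀ b ∈ P, sg p r D η h b ∈ P)
    (hp : p ≠ 0) (η : L) (h : η ^ p = 1) : P.map (sg p r D η h) = P := by
  have hle : ∀ (η : L) (h : η ^ p = 1), P.map (sg p r D η h) ≤ P := by
    intro η h
    rw [Ideal.map_le_iff_le_comap]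
    intro b hb
    exact hP η h b hb
  apply le_antisymm (hle η h)
  have hη0 : η ≠ 0 := by
    rintro rfl
    rw [zero_pow hp] at h
    exact zero_ne_one h
  have h1 : η⁻¹ ^ p = 1 := by rw [inv_pow, h, inv_one]
  have h2 : (η * η⁻¹) ^ p = 1 := by rw [mul_inv_cancel₀ hη0, one_pow]
  have h3 : P.map (sg p r D (η * η⁻¹) h2) = P := by
    have : ∀ (ξ : L) (hξ : ξ ^ p = 1), ξ = 1 → P.map (sg p r D ξ hξ) = P := by
      rintro ξ hξ rfl
      exact sg_map_one _ _ _ _ _
    exact this _ _ (mul_inv_cancel₀ hη0)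
  calc P = (P.map (sg p r D η⁻¹ h1)).map (sg p r D η h) := by
        rw [← sg_map_map p r D η η⁻¹ h h1 h2, h3]
    _ ≤ P.map (sg p r D η h) := Ideal.map_mono (hle _ h1)

/-- the sum of the powers of `ζ ^ m` -/
theorem root_sum (hp : p.Prime) (ζ : L) (hζ : IsPrimitiveRoot ζ p) (m : ℕ) :
    ∑ j ∈ Finset.range p, (ζ ^ j) ^ m = if p ∣ m then (p : L) else 0 := by
  split_ifs with h
  · obtain ⟨k, rfl⟩ := h
    rw [Finset.sum_congr rfl (fun j _ => by
      rw [← pow_mul, mul_comm j, mul_assoc, pow_mul, hζ.pow_eq_one, one_pow])]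
    rw [Finset.sum_const, Finset.card_range, nsmul_eq_mul, mul_one]
  · have h1 : IsPrimitiveRoot (ζ ^ m) p := hζ.pow_of_coprime m ((hp.coprime_iff_not_dvd.2 h).symm)
    have h2 := h1.geom_sum_eq_zero hp.one_lt
    rw [← h2]
    apply Finset.sum_congr rfl
    intro j _
    rw [← pow_mul, ← pow_mul, mul_comm]

theorem exp_dvd [Fact p.Prime] [Ok p r] (i k : Fin p) :
    p ∣ (r * (i : ℕ) % p) * (p - 1) + r * (k : ℕ) % p ↔ k = i := by
  have hp := (Fact.out (p := p.Prime))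
  have h1 := Ok.h1 (p := p) (r := r)
  have h2 := Ok.h2 (p := p) (r := r)
  rw [← ZMod.natCast_eq_zero_iff]
  have h3 : (((r * (i : ℕ) % p) * (p - 1) + r * (k : ℕ) % p : ℕ) : ZMod p) =
      (r : ZMod p) * ((k : ℕ) - (i : ℕ) : ZMod p) := by
    rw [Nat.cast_add, Nat.cast_mul, ZMod.natCast_mod, ZMod.natCast_mod, Nat.cast_pred hp.pos,
      ZMod.natCast_self, Nat.cast_mul, Nat.cast_mul]
    ring
  have h4 : (r : ZMod p) ≠ 0 := by
    rw [Ne, ZMod.natCast_eq_zero_iff]
    intro h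
    have := Nat.le_of_dvd (by omega) h
    omega
  rw [h3, mul_eq_zero, or_iff_right h4, sub_eq_zero]
  constructor
  · intro h
    rw [ZMod.natCast_eq_natCast_iff'] at h
    rw [Nat.mod_eq_of_lt k.2, Nat.mod_eq_of_lt i.2] at h
    exact Fin.ext h
  · rintro rfl
    rfl

/-- the sum of the conjugates of `v_i ^ (p - 1) b` -/
theorem tr_x [Fact p.Prime] [Ok p r] (ζ : L) (hζ : IsPrimitiveRoot ζ p) (f : Fin p → L[X]) (i : Fin p) :
    ∑ j ∈ Finset.range p, sg p r D (ζ ^ j) (by rw [← pow_mul, mul_comm, pow_mul, hζ.pow_eq_one, one_pow])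
      (wi p D r i ^ (p - 1) * ∑ k : Fin p, aeval (uu p r D) (f k) * wi p D r k) =
    algebraMap L (BQ p r D) (p : L) * (aeval (uu p r D) (f i) * wi p D r i ^ p) := by
  have hp := (Fact.out (p := p.Prime))
  have h1 : ∀ j, sg p r D (ζ ^ j) (by rw [← pow_mul, mul_comm, pow_mul, hζ.pow_eq_one, one_pow])
      (wi p D r i ^ (p - 1) * ∑ k : Fin p, aeval (uu p r D) (f k) * wi p D r k) =
      ∑ k : Fin p, algebraMap L (BQ p r D) ((ζ ^ j) ^ ((r * (i : ℕ) % p) * (p - 1) + r * (k : ℕ) % p)) *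
        (aeval (uu p r D) (f k) * (wi p D r i ^ (p - 1) * wi p D r k)) := by
    intro j
    rw [map_mul, map_pow, map_sum, Finset.mul_sum]
    apply Finset.sum_congr rfl
    intro k _
    rw [map_mul, sg_wi, sg_wi, sg_aeval, mul_pow, ← map_pow, ← pow_mul, pow_add, map_mul]
    ring
  simp_rw [h1]
  rw [Finset.sum_comm]
  have h2 : ∀ k : Fin p, ∑ j ∈ Finset.range p,
      algebraMap L (BQ p r D) ((ζ ^ j) ^ ((r * (i : ℕ) % p) * (p - 1) + r * (k : ℕ) % p)) *
        (aeval (uu p r D) (f k) * (wi p D r i ^ (p - 1) * wi p D r k)) =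
      if k = i then algebraMap L (BQ p r D) (p : L) * (aeval (uu p r D) (f i) * wi p D r i ^ p) else 0 := by
    intro k
    rw [← Finset.sum_mul, ← map_sum, root_sum p hp ζ hζ]
    by_cases h4 : k = i
    · rw [if_pos ((exp_dvd p r i k).2 h4), if_pos h4, h4, ← pow_succ, Nat.sub_add_cancel hp.pos]
    · rw [if_neg (fun h5 => h4 ((exp_dvd p r i k).1 h5)), if_neg h4, map_zero, zero_mul]
  rw [Finset.sum_congr rfl (fun k _ => h2 k), Finset.sum_ite_eq' Finset.univ i, if_pos (Finset.mem_univ i)]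

/-- a fixed ideal prime to `u` and `w` is principal -/
theorem fixed_principal (hB : S_BSC) [Fact p.Prime] [Ok p r] [CharZero L] (ζ : L) (hζ : IsPrimitiveRoot ζ p)
    (A : Ideal (BQ p r D)) (hA : ∀ (η : L) (h : η ^ p = 1), A.map (sg p r D η h) = A)
    (hu : IsCoprime A (Ideal.span {uu p r D})) (hw : IsCoprime A (Ideal.span {ww p r D})) :
    ∃ g : L[X], A = Ideal.span {aeval (uu p r D) g} := by
  have hp := (Fact.out (p := p.Prime))
  have hkey : ∀ b ∈ A, ∀ f : Fin p → L[X],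
      b = ∑ i : Fin p, aeval (uu p r D) (f i) * wi p D r i →
      ∀ i : Fin p, aeval (uu p r D) (f i) ∈ A := by
    intro b hb f hab i
    have h1 := tr_x p r D ζ hζ f i
    rw [← hab, wi_pow] at h1
    set t := uu p r D ^ (i : ℕ) * ww p r D ^ (r * (i : ℕ) % p) with ht
    have h2 : algebraMap L (BQ p r D) (p : L) * (aeval (uu p r D) (f i) * t) ∈ A := by
      rw [← h1]
      apply Ideal.sum_mem
      intro j _
      rw [← hA (ζ ^ j) (by rw [← pow_mul, mul_comm, pow_mul, hζ.pow_eq_one, one_pow])]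
      exact Ideal.mem_map_of_mem _ (A.mul_mem_left _ hb)
    have h3 : aeval (uu p r D) (f i) * t ∈ A := by
      have h4 := A.mul_mem_left (algebraMap L (BQ p r D) (p : L)⁻¹) h2
      rwa [← mul_assoc, ← map_mul, inv_mul_cancel₀ (Nat.cast_ne_zero.2 hp.ne_zero), map_one, one_mul] at h4
    have h4 : IsCoprime A (Ideal.span {t}) := by
      rw [ht, ← Ideal.span_singleton_mul_span_singleton, ← Ideal.span_singleton_pow,
        ← Ideal.span_singleton_pow]
      exact hu.pow_right.mul_right hw.pow_right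
    rw [Ideal.isCoprime_iff_exists] at h4
    obtain ⟨x, hx, v, hv, huv⟩ := h4
    obtain ⟨y, hy⟩ := Ideal.mem_span_singleton'.1 hv
    have h5 : aeval (uu p r D) (f i) =
        aeval (uu p r D) (f i) * x + y * (aeval (uu p r D) (f i) * t) := by
      have : aeval (uu p r D) (f i) = aeval (uu p r D) (f i) * (x + v) := by
        rw [huv, mul_one]
      rw [← hy] at this
      nth_rewrite 1 [this]
      ring
    rw [h5]
    exact A.add_mem (A.mul_mem_left _ hx) (A.mul_mem_left _ h3)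
  obtain ⟨g, hg⟩ := (IsPrincipalIdealRing.principal
    (A.comap ((aeval (uu p r D) : L[X] →ₐ[L] BQ p r D) : L[X] →+* BQ p r D))).principal
  refine ⟨g, ?_⟩
  apply le_antisymm
  · intro b hb
    obtain ⟨f, hf, -⟩ := (hB p r L D).2.1 b
    have hf' : b = ∑ i : Fin p, aeval (uu p r D) (f i) * wi p D r i := hf
    rw [hf']
    apply Ideal.sum_mem
    intro i _
    apply Ideal.mul_mem_right
    have h1 : f i ∈ A.comap ((aeval (uu p r D) : L[X] →ₐ[L] BQ p r D) : L[X] →+* BQ p r D) :=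
      hkey b hb f hf' i
    rw [hg] at h1
    obtain ⟨c, hc⟩ := Ideal.mem_span_singleton'.1 h1
    rw [← hc, map_mul]
    exact Ideal.mul_mem_left _ _ (Ideal.mem_span_singleton_self _)
  · rw [Ideal.span_singleton_le_iff_mem]
    have h1 : g ∈ A.comap ((aeval (uu p r D) : L[X] →ₐ[L] BQ p r D) : L[X] →+* BQ p r D) := by
      rw [hg]
      exact Ideal.mem_span_singleton_self g
    exact h1

end

/-- JOB AMB -/
theorem amb : S_BSC → S_DED → S_NMM → S_MV → S_AMB := by
  intro hBSC hDED hNMM hMV p r _ _ L _ _ ζ hζ1 hζ D hD I hI hsim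
  have hp := (Fact.out (p := p.Prime))
  have : IsDedekindDomain (BQ p r D) := (hDED p r L D hD).1
  obtain ⟨-, -, -, -, -, -, hm1, hm2, h10, h20, h12, hprod, hpow, hpow2, -⟩ := hNMM p r L D hD
  obtain ⟨e, he, -, -, -⟩ := (hBSC p r L D).2.2.2.1
  have hprime : (t1 p r D).IsPrime := hm1.isPrime
  have hmem : ∀ b, b ∈ t1 p r D ↔ e b = 0 := by
    intro b
    rw [← he]
    exact RingHom.mem_ker
  -- all powers of `σ`
  have hsimi : ∀ (i : ℕ) (h : (ζ ^ i) ^ p = 1), Sim (I.map (sg p r D (ζ ^ i) h)) I := by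
    intro i
    induction i with
    | zero =>
      intro h
      have : ∀ (ξ : L) (hξ : ξ ^ p = 1), ξ = 1 → Sim (I.map (sg p r D ξ hξ)) I := by
        rintro ξ hξ rfl
        rw [sg_map_one]
        exact sim_refl _
      exact this _ _ (pow_zero ζ)
    | succ i ih =>
      intro h
      have hi : (ζ ^ i) ^ p = 1 := by rw [← pow_mul, mul_comm, pow_mul, hζ1, one_pow]
      have h2 : (ζ * ζ ^ i) ^ p = 1 := by rw [mul_pow, hζ1, hi, one_mul]
      have : ∀ (ξ : L) (hξ : ξ ^ p = 1), ξ = ζ * ζ ^ i → Sim (I.map (sg p r D ξ hξ)) I := by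
        rintro ξ hξ rfl
        rw [sg_map_map p r D ζ (ζ ^ i) hζ1 hi]
        refine sim_trans (sim_map (sg p r D ζ hζ1) ?_ (ih hi)) hsim
        intro x y hxy
        have hinv : (ζ ^ (p - 1)) ^ p = 1 := by rw [← pow_mul, mul_comm, pow_mul, hζ1, one_pow]
        have h3 : (ζ ^ (p - 1) * ζ) ^ p = 1 := by rw [mul_pow, hζ1, hinv, one_mul]
        have h4 := congrArg (sg p r D (ζ ^ (p - 1)) hinv) hxy
        rw [← sg_mul p r D _ _ hinv hζ1 h3, ← sg_mul p r D _ _ hinv hζ1 h3] at h4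
        have h5 : ∀ (ξ : L) (hξ : ξ ^ p = 1), ξ = 1 → ∀ b, sg p r D ξ hξ b = b := by
          rintro ξ hξ rfl b
          exact sg_one p r D _ b
        have h6 : ζ ^ (p - 1) * ζ = 1 := by rw [← pow_succ, Nat.sub_add_cancel hp.pos, hζ1]
        rwa [h5 _ _ h6, h5 _ _ h6] at h4
      exact this _ _ (pow_succ' ζ i)
  have hsimη : ∀ (η : L) (h : η ^ p = 1), Sim (I.map (sg p r D η h)) I := by
    intro η h
    have : NeZero p := ⟨hp.ne_zero⟩
    obtain ⟨i, _, rfl⟩ := hζ.eq_pow_of_pow_eq_one h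
    exact hsimi i h
  have : NeZero p := ⟨hp.ne_zero⟩
  have hg : ∀ g : rootsOfUnity p L, ((g : Lˣ) : L) ^ p = 1 := by
    intro g
    have h := g.2
    rw [mem_rootsOfUnity] at h
    rw [← Units.val_pow_eq_pow_val, h, Units.val_one]
  have hfin : Finite (rootsOfUnity p L) := inferInstance
  have := Fintype.ofFinite (rootsOfUnity p L)
  -- the element `v` is not zero
  have hv0 : vv p r D ≠ 0 := by
    intro h
    rw [h, Ideal.span_singleton_eq_bot.2 rfl] at hprod
    rcases Ideal.mul_eq_bot.1 hprod with h1 | h1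
    · exact h10 h1
    · exact h20 (pow_eq_zero_iff (Nat.one_le_iff_ne_zero.1 (Ok.h1 (p := p) (r := r))) |>.1 h1)
  have hu0 : uu p r D ≠ 0 := by
    intro h
    rw [h, Ideal.span_singleton_eq_bot.2 rfl] at hpow
    exact h10 (pow_eq_zero_iff hp.ne_zero |>.1 hpow)
  have hw0 : ww p r D ≠ 0 := by
    intro h
    rw [h, Ideal.span_singleton_eq_bot.2 rfl] at hpow2
    exact h20 (pow_eq_zero_iff hp.ne_zero |>.1 hpow2)
  obtain ⟨A, hA0, hAf, a, b, ha, hb, hab⟩ := Pool.Agent.Q132.CJ.fixed_rep (t1 p r D)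
    (fun u hu h => by
      obtain ⟨c, rfl⟩ := unit_const hBSC p r L _ u hu
      rw [hmem, map_sub, AlgHom.commutes, map_one, sub_eq_zero] at h
      have h' : c = 1 := h
      rw [h', map_one])
    (fun a ha b hb => by
      rw [hmem] at ha hb
      refine ⟨algebraMap L _ (e b / e a), ?_, ?_⟩
      · refine IsUnit.of_mul_eq_one (algebraMap L _ (e a / e b)) ?_
        rw [← map_mul, div_mul_div_cancel₀ ha, div_self hb, map_one]
      · rw [hmem, map_sub, map_mul, AlgHom.commutes]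
        change e b / e a * e a - e b = 0
        rw [div_mul_cancel₀ _ ha, sub_self])
    (fun I hI => by
      obtain ⟨K, hK, hs, hK1, _⟩ := (hMV p r L _ hD).1 I hI
      exact ⟨K, hK, hs, hK1⟩)
    (G := rootsOfUnity p L) (fun g => sg p r D ((g : Lˣ) : L) (hg g))
    (fun b => sg_one p r D _ b) (fun g h b => sg_mul p r D _ _ (hg g) (hg h) _ b)
    (by
      intro g g' h
      have hval : ∀ (η : L) (hη : η ^ p = 1), sg p r D η hη (vv p r D) =
          algebraMap L (BQ p r D) (η ^ r) * vv p r D := by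
        intro η hη
        refine Subtype.ext ?_
        change sF p D η hη (XF p D * YF p D ^ r) = algebraMap L (RF p D) (η ^ r) * (XF p D * YF p D ^ r)
        rw [map_mul, map_pow, sF_XF, sF_YF, mul_pow, map_pow]
        ring
      have h1 := DFunLike.congr_fun h (vv p r D)
      rw [hval, hval] at h1
      have h2 := alg_inj p D r _ _ (mul_right_cancel₀ hv0 h1)
      -- `g ^ r = g' ^ r` and `g ^ p = g' ^ p = 1`
      have hcop : Nat.Coprime r p := by
        rw [Nat.coprime_comm, hp.coprime_iff_not_dvd]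
        intro hd
        have h3 := Nat.le_of_dvd (Ok.h1 (p := p) (r := r)) hd
        have h4 := Ok.h2 (p := p) (r := r)
        omega
      have h5 : (((g : Lˣ) : L) / ((g' : Lˣ) : L)) ^ r = 1 := by
        rw [div_pow, h2, div_self (pow_ne_zero _ (Units.ne_zero _))]
      have h6 : (((g : Lˣ) : L) / ((g' : Lˣ) : L)) ^ p = 1 := by
        rw [div_pow, hg g, hg g', div_one]
      have h7 : ((g : Lˣ) : L) / ((g' : Lˣ) : L) = 1 := by
        have h8 : orderOf (((g : Lˣ) : L) / ((g' : Lˣ) : L)) ∣ Nat.gcd r p :=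
          Nat.dvd_gcd (orderOf_dvd_of_pow_eq_one h5) (orderOf_dvd_of_pow_eq_one h6)
        rw [Nat.Coprime] at hcop
        rw [hcop, Nat.dvd_one, orderOf_eq_one_iff] at h8
        exact h8
      rw [div_eq_one_iff_eq (Units.ne_zero _)] at h7
      exact Subtype.ext (Units.ext h7))
    (fun g b hb => sg_t1 p r D _ _ b hb) I hI (fun g => hsimη _ (hg g))
  have hsAI : Sim A I := ⟨a, b, ha, hb, hab⟩
  have hAη : ∀ (η : L) (h : η ^ p = 1), A.map (sg p r D η h) = A := by
    intro η h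
    have h1 := hAf (rootsOfUnity.mkOfPowEq η h)
    exact h1
  -- the powers of `t1` and `t2`
  have hs1 : ∀ (η : L) (h : η ^ p = 1), (t1 p r D).map (sg p r D η h) = t1 p r D :=
    stable_eq p r D _ (fun η h b hb => sg_t1 p r D η h b hb) hp.ne_zero
  have hs2 : ∀ (η : L) (h : η ^ p = 1), (t2 p r D).map (sg p r D η h) = t2 p r D :=
    stable_eq p r D _ (fun η h b hb => sg_t2 p r D η h b hb) hp.ne_zero
  have hpr1 : Prime (t1 p r D) := Ideal.prime_of_isPrime h10 hm1.isPrime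
  have hpr2 : Prime (t2 p r D) := Ideal.prime_of_isPrime h20 hm2.isPrime
  obtain ⟨n1, A1, hA1, hAA1⟩ := WfDvdMonoid.max_power_factor hA0 hpr1.irreducible
  have hA10 : A1 ≠ ⊥ := by
    rintro rfl
    rw [Ideal.mul_bot] at hAA1
    exact hA0 hAA1
  obtain ⟨n2, A2, hA2, hAA2⟩ := WfDvdMonoid.max_power_factor hA10 hpr2.irreducible
  have hA20 : A2 ≠ ⊥ := by
    rintro rfl
    rw [Ideal.mul_bot] at hAA2
    exact hA10 hAA2
  have hA21 : ¬ t1 p r D ∣ A2 := fun h => hA1 (hAA2 ▸ Dvd.dvd.mul_left h _)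
  have hA2f : ∀ (η : L) (h : η ^ p = 1), A2.map (sg p r D η h) = A2 := by
    intro η h
    have h1 := hAη η h
    rw [hAA1, hAA2, Ideal.map_mul, Ideal.map_mul, Ideal.map_pow, Ideal.map_pow, hs1, hs2] at h1
    exact mul_left_cancel₀ (pow_ne_zero _ h20) (mul_left_cancel₀ (pow_ne_zero _ h10) h1)
  have hcop : ∀ t : Ideal (BQ p r D), t.IsMaximal → ¬ t ∣ A2 → IsCoprime A2 t := by
    intro t ht hd
    rw [Ideal.isCoprime_iff_sup_eq]
    by_contra hne
    have h1 := ht.eq_of_le hne le_sup_right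
    apply hd
    rw [Ideal.dvd_iff_le, h1]
    exact le_sup_left
  obtain ⟨g, hg2⟩ := fixed_principal p r D hBSC ζ hζ A2 hA2f
    (by
      rw [← hpow]
      exact (hcop _ hm1 hA21).pow_right)
    (by
      rw [← hpow2]
      exact (hcop _ hm2 hA2).pow_right)
  have hsA2 : Sim A2 1 := by
    refine ⟨1, aeval (uu p r D) g, one_ne_zero, ?_, ?_⟩
    · intro h
      rw [h, Ideal.span_singleton_eq_bot.2 rfl] at hg2
      exact hA20 hg2
    · rw [hg2, Ideal.span_singleton_one, Ideal.top_mul, mul_one]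
  obtain ⟨s, m, hsm⟩ : ∃ s m : ℕ, r * s = 1 + p * m := by
    have hcop2 : Nat.Coprime r p := by
      rw [Nat.coprime_comm, hp.coprime_iff_not_dvd]
      intro hd
      have h3 := Nat.le_of_dvd (Ok.h1 (p := p) (r := r)) hd
      have h4 := Ok.h2 (p := p) (r := r)
      omega
    obtain ⟨s, hs⟩ := Nat.exists_mul_mod_eq_one_of_coprime hcop2 hp.one_lt
    refine ⟨s, r * s / p, ?_⟩
    have := Nat.div_add_mod (r * s) p
    omega
  have hst : Sim (t2 p r D) (t1 p r D ^ ((p - 1) * s)) := by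
    refine ⟨uu p r D ^ s * ww p r D ^ m, vv p r D ^ s, mul_ne_zero (pow_ne_zero _ hu0) (pow_ne_zero _ hw0),
      pow_ne_zero _ hv0, ?_⟩
    rw [← Ideal.span_singleton_mul_span_singleton, ← Ideal.span_singleton_pow, ← Ideal.span_singleton_pow,
      ← Ideal.span_singleton_pow, ← hpow, ← hpow2, ← hprod, mul_pow, ← pow_mul, ← pow_mul, ← pow_mul, hsm]
    have e1 : p * s = s + (p - 1) * s := by
      obtain ⟨q, hq⟩ : ∃ q, p = q + 1 := ⟨p - 1, (Nat.sub_add_cancel hp.pos).symm⟩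
      have hq' : p - 1 = q := by omega
      rw [hq', hq]
      ring
    rw [e1, pow_add, pow_add, pow_one]
    ring
  refine ⟨n1 + ((p - 1) * s) * n2, sim_trans (sim_symm hsAI) ?_⟩
  rw [hAA1, hAA2, pow_add, pow_mul]
  have h1 : Sim (t1 p r D ^ n1 * (t2 p r D ^ n2 * A2)) (t1 p r D ^ n1 * ((t1 p r D ^ ((p - 1) * s)) ^ n2 * 1)) :=
    sim_mul (sim_refl _) (sim_mul (sim_pow hst n2) hsA2)
  rwa [mul_one] at h1

end Pool.Agent.Q79.CF
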