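import Pool.Agent.Q7.CF.Stm

/-!
# Project CF (helper7), job BC: extension of the field of constants (helper79, after helper123)
-/

set_option autoImplicit false

namespace Pool.Agent.Q79.CF.BC

open Pool.Agent.Q7.CF
open Polynomial TensorProduct

/-- extension of scalars of quotients -/
theorem norm_gen {L M A B : Type} [Field L] [Field M] [Algebra L M] [CommRing A] [Algebra L A] [CommRing B]
    [Algebra M B] [Algebra L B] [IsScalarTower L M B] (ε : (M ⊗[L] A) ≃ₐ[M] B) (β : A →ₐ[L] B)
    (hβ : ∀ a, ε ((1 : M) ⊗ₜ[L] a) = β a) (I : Ideal A) (J : Ideal B) (hJ : J = I.map (β : A →+* B))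
    [Module.Finite L (A ⧸ I)] (c : A) :
    Algebra.norm M (Ideal.Quotient.mk J (β c)) = algebraMap L M (Algebra.norm L (Ideal.Quotient.mk I c)) := by
  set π : A →ₐ[L] (A ⧸ I) := Ideal.Quotient.mkₐ L I with hπ
  set f1 : B →ₐ[M] (M ⊗[L] (A ⧸ I)) := (Algebra.TensorProduct.map (AlgHom.id M M) π).comp ε.symm.toAlgHom with hf1
  have f1b : ∀ b : A, f1 (β b) = (1 : M) ⊗ₜ[L] π b := by
    intro b
    change Algebra.TensorProduct.map (AlgHom.id M M) π (ε.symm (β b)) = _
    rw [← hβ, AlgEquiv.symm_apply_apply, Algebra.TensorProduct.map_tmul]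
    rfl
  have hker : ∀ z ∈ J, f1 z = 0 := by
    intro z hz
    have h1 : J ≤ RingHom.ker (f1 : B →+* (M ⊗[L] (A ⧸ I))) := by
      rw [hJ, Ideal.map_le_iff_le_comap]
      intro b hb
      rw [Ideal.mem_comap, RingHom.mem_ker]
      have h2 : f1 (β b) = (1 : M) ⊗ₜ[L] π b := f1b b
      have h3 : π b = 0 := Ideal.Quotient.eq_zero_iff_mem.2 hb
      rw [h3, TensorProduct.tmul_zero] at h2
      exact h2
    exact h1 hz
  set fb : (B ⧸ J) →ₐ[M] (M ⊗[L] (A ⧸ I)) := Ideal.Quotient.liftₐ J f1 hker with hfb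
  have hfb' : ∀ z, fb (Ideal.Quotient.mk J z) = f1 z := fun z => rfl
  -- the inverse
  set q : (A ⧸ I) →ₐ[L] (B ⧸ J) :=
    Ideal.Quotient.liftₐ I ((Ideal.Quotient.mkₐ L J).comp β) (fun a ha => by
      have h1 : β a ∈ J := by
        rw [hJ]
        exact Ideal.mem_map_of_mem (β : A →+* B) ha
      exact Ideal.Quotient.eq_zero_iff_mem.2 h1) with hq
  have hq' : ∀ b, q (Ideal.Quotient.mk I b) = Ideal.Quotient.mk J (β b) := fun b => rfl
  set g : (M ⊗[L] (A ⧸ I)) →ₐ[M] (B ⧸ J) :=
    Algebra.TensorProduct.lift (Algebra.ofId M _) q (fun _ _ => Commute.all _ _) with hg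
  have hg' : ∀ v, g ((1 : M) ⊗ₜ[L] v) = q v := by
    intro v
    rw [hg, Algebra.TensorProduct.lift_tmul, map_one, one_mul]
  have hgf : ∀ z, g (f1 z) = Ideal.Quotient.mk J z := by
    have h : (g.comp f1).comp ε.toAlgHom = (Ideal.Quotient.mkₐ M J).comp ε.toAlgHom := by
      refine Algebra.TensorProduct.ext (by ext) ?_
      refine AlgHom.ext fun b => ?_
      change g (f1 (ε ((1 : M) ⊗ₜ[L] b))) = Ideal.Quotient.mk J (ε ((1 : M) ⊗ₜ[L] b))
      rw [hβ, f1b, hg']
      rfl
    intro z
    obtain ⟨t, rfl⟩ := ε.surjective z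
    exact AlgHom.congr_fun h t
  have hinj : Function.Injective fb := by
    rw [injective_iff_map_eq_zero]
    intro z hz
    obtain ⟨w, rfl⟩ := Ideal.Quotient.mk_surjective z
    rw [hfb'] at hz
    rw [← hgf w, hz, map_zero]
  have hsurj : Function.Surjective fb := by
    intro t
    induction t using TensorProduct.induction_on with
    | zero => exact ⟨0, map_zero _⟩
    | tmul m v =>
      obtain ⟨b, rfl⟩ := Ideal.Quotient.mk_surjective v
      refine ⟨m • Ideal.Quotient.mk J (β b), ?_⟩
      rw [map_smul, hfb', f1b, TensorProduct.smul_tmul', smul_eq_mul, mul_one]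
      rfl
    | add x y hx hy =>
      obtain ⟨x', rfl⟩ := hx
      obtain ⟨y', rfl⟩ := hy
      exact ⟨x' + y', map_add _ _ _⟩
  set e : (B ⧸ J) ≃ₐ[M] (M ⊗[L] (A ⧸ I)) := AlgEquiv.ofBijective fb ⟨hinj, hsurj⟩ with he
  rw [← Algebra.norm_eq_of_algEquiv e]
  have h1 : e (Ideal.Quotient.mk J (β c)) = (1 : M) ⊗ₜ[L] π c := f1b c
  rw [h1, Algebra.norm_apply, Algebra.norm_apply, ← LinearMap.det_baseChange]
  congr 1
  ext v
  simp
  rfl

section

variable {p : ℕ} {L : Type} [Field L]

/-- homomorphisms of the coordinate ring of the Fermat curve -/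
theorem rf_ext {D : L} {S : Type} [CommRing S] (f g : RF p D →+* S)
    (hc : ∀ a : L, f (algebraMap L (RF p D) a) = g (algebraMap L (RF p D) a))
    (hx : f (XF p D) = g (XF p D)) (hy : f (YF p D) = g (YF p D)) : f = g := by
  have h : f.comp (AdjoinRoot.mk (fF p D)) = g.comp (AdjoinRoot.mk (fF p D)) := by
    refine Polynomial.ringHom_ext' ?_ ?_
    · refine Polynomial.ringHom_ext' ?_ ?_
      · ext a
        exact hc a
      · exact hx
    · exact hy
  refine RingHom.ext fun z => ?_
  induction z using AdjoinRoot.induction_on with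
  | ih q => exact RingHom.congr_fun h q

variable {M : Type} [Field M] [Algebra L M]

/-- the coordinate ring of the Fermat curve over `M` and the one over `L` -/
noncomputable def FR (D : L) : RF p (algebraMap L M D) →ₐ[M] (M ⊗[L] RF p D) :=
  AdjoinRoot.liftAlgHom (fF p (algebraMap L M D)) (Polynomial.aeval ((1 : M) ⊗ₜ[L] XF p D))
    ((1 : M) ⊗ₜ[L] YF p D) (by
      rw [eval₂_fF]
      have h1 : (Polynomial.aeval ((1 : M) ⊗ₜ[L] XF p D) : M[X] →ₐ[M] (M ⊗[L] RF p D))
          (C (algebraMap L M D) - X ^ p) = (1 : M) ⊗ₜ[L] (algebraMap L (RF p D) D - XF p D ^ p) := by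
        rw [map_sub, map_pow, aeval_X, aeval_C, TensorProduct.tmul_sub, Algebra.TensorProduct.tmul_pow,
          one_pow, Algebra.TensorProduct.algebraMap_apply]
        congr 1
        rw [Algebra.algebraMap_eq_smul_one (A := RF p D), TensorProduct.tmul_smul,
          TensorProduct.smul_tmul', Algebra.smul_def, mul_one]
        rfl
      have h2 : ((1 : M) ⊗ₜ[L] YF p D) ^ p = (1 : M) ⊗ₜ[L] (YF p D ^ p) := by
        rw [Algebra.TensorProduct.tmul_pow, one_pow]
      have h3 : YF p D ^ p = algebraMap L (RF p D) D - XF p D ^ p := by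
        rw [← fermat_eq p D]
        ring
      rw [h2, h3]
      exact sub_eq_zero.2 h1.symm)

theorem FR_YF (D : L) : FR (M := M) D (YF p (algebraMap L M D)) = (1 : M) ⊗ₜ[L] YF p D := by
  unfold FR YF
  exact AdjoinRoot.liftAlgHom_root _ _ _ _

theorem FR_XF (D : L) : FR (M := M) D (XF p (algebraMap L M D)) = (1 : M) ⊗ₜ[L] XF p D := by
  unfold FR
  have h : XF p (algebraMap L M D) = AdjoinRoot.of (fF p (algebraMap L M D)) X := rfl
  rw [h, AdjoinRoot.liftAlgHom_of, aeval_X]

theorem FR_bF (D : L) (z : RF p D) :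
    FR (M := M) D (bF p (algebraMap L M) D (algebraMap L M D) rfl z) = (1 : M) ⊗ₜ[L] z := by
  have h : ((FR (M := M) D : RF p (algebraMap L M D) →ₐ[M] (M ⊗[L] RF p D)) : _ →+* _).comp
      (bF p (algebraMap L M) D (algebraMap L M D) rfl) =
      ((Algebra.TensorProduct.includeRight : RF p D →ₐ[L] (M ⊗[L] RF p D)) : RF p D →+* (M ⊗[L] RF p D)) := by
    refine rf_ext _ _ (fun a => ?_) ?_ ?_
    · rw [RingHom.comp_apply, bF_alg, RingHom.coe_coe, AlgHom.commutes, RingHom.coe_coe, AlgHom.commutes,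
        ← IsScalarTower.algebraMap_apply]
    · rw [RingHom.comp_apply, bF_XF]
      exact FR_XF D
    · rw [RingHom.comp_apply, bF_YF]
      exact FR_YF D
  exact RingHom.congr_fun h z

variable {r : ℕ}

/-- the homomorphism of coordinate rings over `L` -/
noncomputable def bcA (D : L) : BQ p r D →ₐ[L] BQ p r (algebraMap L M D) :=
  { bc p r (algebraMap L M) D (algebraMap L M D) rfl with
    commutes' := fun a => by
      refine Subtype.ext ?_
      change bF p (algebraMap L M) D (algebraMap L M D) rfl (algebraMap L (RF p D) a) =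
        algebraMap L (RF p (algebraMap L M D)) a
      rw [bF_alg]
      rfl }

theorem bcA_apply (D : L) (b : BQ p r D) :
    bcA (M := M) D b = bc p r (algebraMap L M) D (algebraMap L M D) rfl b := rfl

/-- the coordinate ring over `M` as extension of scalars -/
noncomputable def th (D : L) : (M ⊗[L] BQ p r D) →ₐ[M] BQ p r (algebraMap L M D) :=
  Algebra.TensorProduct.lift (Algebra.ofId M _) (bcA D) (fun _ _ => Commute.all _ _)

theorem th_tmul (D : L) (m : M) (b : BQ p r D) :
    th (M := M) D (m ⊗ₜ[L] b) = algebraMap M _ m * bc p r (algebraMap L M) D (algebraMap L M D) rfl b := by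
  unfold th
  rw [Algebra.TensorProduct.lift_tmul]
  rfl

theorem th_surj (D : L) : Function.Surjective (th (M := M) (p := p) (r := r) D) := by
  intro z
  have key : ∀ w : RF p (algebraMap L M D), w ∈ BQ p r (algebraMap L M D) →
      ∃ t, ((th (M := M) (p := p) (r := r) D t : BQ p r (algebraMap L M D)) :
        RF p (algebraMap L M D)) = w := by
    intro w hw
    unfold BQ at hw
    induction hw using Algebra.adjoin_induction with
    | mem x hx =>
      obtain ⟨a, b, hab, rfl⟩ := hx
      refine ⟨(1 : M) ⊗ₜ[L] ⟨XF p D ^ a * YF p D ^ b, mons_mem p r D hab⟩, ?_⟩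
      rw [th_tmul, map_one, one_mul, bc_val, map_mul, map_pow, map_pow, bF_XF, bF_YF]
    | algebraMap c =>
      refine ⟨c ⊗ₜ[L] 1, ?_⟩
      rw [th_tmul, map_one, mul_one]
      rfl
    | add x y _ _ hx hy =>
      obtain ⟨s, hs⟩ := hx
      obtain ⟨t, ht⟩ := hy
      exact ⟨s + t, by rw [map_add, Subalgebra.coe_add, hs, ht]⟩
    | mul x y _ _ hx hy =>
      obtain ⟨s, hs⟩ := hx
      obtain ⟨t, ht⟩ := hy
      exact ⟨s * t, by rw [map_mul, Subalgebra.coe_mul, hs, ht]⟩
  obtain ⟨t, ht⟩ := key z.1 z.2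
  exact ⟨t, Subtype.ext ht⟩

theorem th_inj (D : L) : Function.Injective (th (M := M) (p := p) (r := r) D) := by
  have h1 : ((FR (M := M) D).comp ((BQ p r (algebraMap L M D)).val.comp (th (M := M) D))) =
      Algebra.TensorProduct.map (AlgHom.id M M) (BQ p r D).val := by
    refine Algebra.TensorProduct.ext (by ext) ?_
    refine AlgHom.ext fun b => ?_
    change FR (M := M) D (th (M := M) D ((1 : M) ⊗ₜ[L] b) : BQ p r (algebraMap L M D)) =
      Algebra.TensorProduct.map (AlgHom.id M M) (BQ p r D).val ((1 : M) ⊗ₜ[L] b)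
    rw [th_tmul, map_one, one_mul, bc_val, FR_bF, Algebra.TensorProduct.map_tmul]
    rfl
  have h2 : Function.Injective (Algebra.TensorProduct.map (AlgHom.id M M) (BQ p r D).val :
      (M ⊗[L] BQ p r D) →ₐ[M] (M ⊗[L] RF p D)) := by
    have h3 := Module.Flat.lTensor_preserves_injective_linearMap (M := M)
      ((BQ p r D).val.toLinearMap : BQ p r D →ₗ[L] RF p D) Subtype.val_injective
    intro x y hxy
    exact h3 hxy
  intro x y hxy
  apply h2
  rw [← h1]
  change FR (M := M) D (th (M := M) (p := p) (r := r) D x).1 =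
    FR (M := M) D (th (M := M) (p := p) (r := r) D y).1
  rw [hxy]

/-- the isomorphism -/
noncomputable def te (D : L) : (M ⊗[L] BQ p r D) ≃ₐ[M] BQ p r (algebraMap L M D) :=
  AlgEquiv.ofBijective (th D) ⟨th_inj D, th_surj D⟩

theorem te_tmul (D : L) (b : BQ p r D) :
    te (M := M) D ((1 : M) ⊗ₜ[L] b) = bc p r (algebraMap L M) D (algebraMap L M D) rfl b := by
  have h := th_tmul (M := M) D 1 b
  rw [map_one, one_mul] at h
  exact h

theorem te_symm (D : L) (b : BQ p r D) :
    (te (M := M) D).symm (bc p r (algebraMap L M) D (algebraMap L M D) rfl b) = (1 : M) ⊗ₜ[L] b := by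
  rw [← te_tmul, AlgEquiv.symm_apply_apply]

theorem bc_inj (D : L) : Function.Injective (bc p r (algebraMap L M) D (algebraMap L M D) rfl) := by
  intro a b hab
  have h := congrArg (te (M := M) D).symm hab
  rw [te_symm, te_symm] at h
  exact Algebra.TensorProduct.includeRight_injective (A := M) (B := BQ p r D) (algebraMap L M).injective h

/-- the value of a function at an ideal -/
theorem bc_norm (D : L) (I : Ideal (BQ p r D)) [Module.Finite L (BQ p r D ⧸ I)] (c : BQ p r D) :
    Algebra.norm M (Ideal.Quotient.mk (I.map (bc p r (algebraMap L M) D (algebraMap L M D) rfl))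
      (bc p r (algebraMap L M) D (algebraMap L M D) rfl c)) =
      algebraMap L M (Algebra.norm L (Ideal.Quotient.mk I c)) := by
  exact norm_gen (te (M := M) (p := p) (r := r) D) (bcA D) (fun a => te_tmul D a) I _ rfl c

theorem bc_uu (D : L) : bc p r (algebraMap L M) D (algebraMap L M D) rfl (uu p r D) =
    uu p r (algebraMap L M D) := by
  refine Subtype.ext ?_
  change bF p (algebraMap L M) D (algebraMap L M D) rfl (XF p D ^ p) = XF p (algebraMap L M D) ^ p
  rw [map_pow, bF_XF]

theorem bc_ww (D : L) : bc p r (algebraMap L M) D (algebraMap L M D) rfl (ww p r D) =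
    ww p r (algebraMap L M D) := by
  refine Subtype.ext ?_
  change bF p (algebraMap L M) D (algebraMap L M D) rfl (YF p D ^ p) = YF p (algebraMap L M D) ^ p
  rw [map_pow, bF_YF]

/-- the value of `u` -/
theorem bc_nm (D : L) (I : Ideal (BQ p r D)) [Module.Finite L (BQ p r D ⧸ I)] :
    nm p r (algebraMap L M D) (I.map (bc p r (algebraMap L M) D (algebraMap L M D) rfl)) =
      algebraMap L M (nm p r D I) := by
  have h := bc_norm (M := M) D I (uu p r D)
  rw [bc_uu] at h
  exact h

/-- the value of `D - u` -/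
theorem bc_nw (D : L) (I : Ideal (BQ p r D)) [Module.Finite L (BQ p r D ⧸ I)] :
    nw p r (algebraMap L M D) (I.map (bc p r (algebraMap L M) D (algebraMap L M D) rfl)) =
      algebraMap L M (nw p r D I) := by
  have h := bc_norm (M := M) D I (ww p r D)
  rw [bc_ww] at h
  exact h

end

/-- also for `nw` -/
theorem bcw (p r : ℕ) (L M : Type) [Field L] [Field M] (φ : L →+* M) (D : L) (D' : M) (h : φ D = D')
    (I : Ideal (BQ p r D)) [Module.Finite L (BQ p r D ⧸ I)] : nw p r D' (I.map (bc p r φ D D' h)) = φ (nw p r D I) := by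
  subst h
  let _ : Algebra L M := φ.toAlgebra
  exact bc_nw (M := M) D I

theorem bcf : S_BSC → S_DED → S_BC := by
  intro _ hDED p r _ _ L M _ _ _ φ D D' h hD
  subst h
  let _ : Algebra L M := φ.toAlgebra
  have h1 : Function.Injective (bc p r φ D (φ D) rfl) := bc_inj (M := M) D
  refine ⟨h1, fun I hI => ⟨?_, ?_⟩⟩
  · obtain ⟨b, hb, hb0⟩ := Submodule.exists_mem_ne_zero_of_ne_bot hI
    intro h0
    have h2 : bc p r φ D (φ D) rfl b ∈ I.map (bc p r φ D (φ D) rfl) := Ideal.mem_map_of_mem _ hb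
    rw [h0, Ideal.mem_bot] at h2
    exact hb0 (h1 (by rw [h2, map_zero]))
  · have _ : Module.Finite L (BQ p r D ⧸ I) := (hDED p r L D hD).2.1 I hI
    exact bc_nm (M := M) D I

end Pool.Agent.Q79.CF.BC
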