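import Pool.Agent.Q7.CF.Stm

/-!
# The curves `C_r` and `C_(1/r)` are isomorphic (job SYM of project CF, helper79)
-/

set_option autoImplicit false

namespace Pool.Agent.Q79.CF

open Polynomial Pool.Agent.Q7.CF

section

variable (p : ℕ) {L : Type} [Field L]

/-- the automorphism `X ↔ Y` of the Fermat curve -/
noncomputable def sw (D : L) : RF p D →ₐ[L] RF p D :=
  AdjoinRoot.liftAlgHom (fF p D) (aeval (YF p D) : L[X] →ₐ[L] RF p D) (XF p D) (by
    rw [eval₂_fF]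
    change XF p D ^ p - aeval (YF p D) (C D - X ^ p) = 0
    rw [map_sub, map_pow, aeval_X, aeval_C, ← fermat_eq p D]
    ring)

theorem sw_YF (D : L) : sw p D (YF p D) = XF p D := by
  unfold sw YF
  exact AdjoinRoot.liftAlgHom_root _ _ _ _

theorem sw_of (D : L) (g : L[X]) : sw p D (AdjoinRoot.of (fF p D) g) = aeval (YF p D) g := by
  exact AdjoinRoot.liftAlgHom_of (fF p D) (aeval (YF p D) : L[X] →ₐ[L] RF p D) (XF p D) _ g

theorem sw_XF (D : L) : sw p D (XF p D) = YF p D := by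
  have h := sw_of p D X
  rwa [aeval_X] at h

theorem sw_mem {r r' : ℕ} (h : r * r' ≡ 1 [MOD p]) (D : L) (z : RF p D) (hz : z ∈ BQ p r D) :
    sw p D z ∈ BQ p r' D := by
  unfold BQ at hz
  induction hz using Algebra.adjoin_induction with
  | mem x hx =>
    obtain ⟨a, b, hab, rfl⟩ := hx
    rw [map_mul, map_pow, map_pow, sw_XF, sw_YF, mul_comm]
    refine mons_mem p r' D ?_
    have h1 : r' * b ≡ r' * (r * a) [MOD p] := hab.mul_left r'
    have h2 : r' * (r * a) = (r * r') * a := by ring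
    rw [h2] at h1
    have h3 : (r * r') * a ≡ 1 * a [MOD p] := h.mul_right a
    rw [one_mul] at h3
    exact (h1.trans h3).symm
  | algebraMap c =>
    rw [AlgHom.commutes]
    exact (BQ p r' D).algebraMap_mem _
  | add x y _ _ hx hy => rw [map_add]; exact (BQ p r' D).add_mem hx hy
  | mul x y _ _ hx hy => rw [map_mul]; exact (BQ p r' D).mul_mem hx hy

theorem sw_sw (r : ℕ) (D : L) (z : RF p D) (hz : z ∈ BQ p r D) : sw p D (sw p D z) = z := by
  unfold BQ at hz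
  induction hz using Algebra.adjoin_induction with
  | mem x hx =>
    obtain ⟨a, b, hab, rfl⟩ := hx
    rw [map_mul, map_pow, map_pow, sw_XF, sw_YF, map_mul, map_pow, map_pow, sw_XF, sw_YF]
  | algebraMap c => rw [AlgHom.commutes, AlgHom.commutes]
  | add x y _ _ hx hy => rw [map_add, map_add, hx, hy]
  | mul x y _ _ hx hy => rw [map_mul, map_mul, hx, hy]

/-- the isomorphism of the coordinate rings -/
noncomputable def sq {r r' : ℕ} (h : r * r' ≡ 1 [MOD p]) (D : L) : BQ p r D →ₐ[L] BQ p r' D :=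
  AlgHom.codRestrict ((sw p D).comp (BQ p r D).val) (BQ p r' D) (fun z => sw_mem p h D z.1 z.2)

theorem sq_val {r r' : ℕ} (h : r * r' ≡ 1 [MOD p]) (D : L) (z : BQ p r D) :
    (sq p h D z : RF p D) = sw p D z := rfl

/-- the isomorphism of the coordinate rings -/
noncomputable def se {r r' : ℕ} (h : r * r' ≡ 1 [MOD p]) (h' : r' * r ≡ 1 [MOD p]) (D : L) :
    BQ p r D ≃ₐ[L] BQ p r' D :=
  AlgEquiv.ofAlgHom (sq p h D) (sq p h' D)
    (by
      refine AlgHom.ext fun z => Subtype.ext ?_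
      change sw p D (sw p D z.1) = z.1
      exact sw_sw p r' D z.1 z.2)
    (by
      refine AlgHom.ext fun z => Subtype.ext ?_
      change sw p D (sw p D z.1) = z.1
      exact sw_sw p r D z.1 z.2)

theorem se_uu {r r' : ℕ} (h : r * r' ≡ 1 [MOD p]) (h' : r' * r ≡ 1 [MOD p]) (D : L) :
    se p h h' D (uu p r D) = ww p r' D := by
  refine Subtype.ext ?_
  change sw p D (XF p D ^ p) = YF p D ^ p
  rw [map_pow, sw_XF]

theorem se_ww {r r' : ℕ} (h : r * r' ≡ 1 [MOD p]) (h' : r' * r ≡ 1 [MOD p]) (D : L) :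
    se p h h' D (ww p r D) = uu p r' D := by
  refine Subtype.ext ?_
  change sw p D (YF p D ^ p) = XF p D ^ p
  rw [map_pow, sw_YF]

theorem nm_se {r r' : ℕ} (h : r * r' ≡ 1 [MOD p]) (h' : r' * r ≡ 1 [MOD p]) (D : L)
    (I : Ideal (BQ p r D)) :
    nm p r' D (I.map (se p h h' D : BQ p r D →+* BQ p r' D)) = nw p r D I := by
  unfold nm nw
  rw [← se_ww p h h' D]
  exact Algebra.norm_eq_of_algEquiv
    (Ideal.quotientEquivAlg I (I.map (se p h h' D : BQ p r D →+* BQ p r' D)) (se p h h' D) rfl)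
    (Ideal.Quotient.mk I (ww p r D))

end

theorem sym : S_BSC → S_DED → S_NMM → S_SYM := by
  intro _ hDED hNMM p r r' _ _ _ h L _ _ D a hD0 hC
  obtain ⟨ha, I, hI, s, hs, hnm⟩ := hC
  have h' : r' * r ≡ 1 [MOD p] := by rwa [mul_comm]
  have hp0 : p ≠ 0 := (Fact.out (p := p.Prime)).ne_zero
  have ded : IsDedekindDomain (BQ p r D) := (hDED p r L D hD0).1
  have ded' : IsDedekindDomain (BQ p r' D) := (hDED p r' L D hD0).1
  obtain ⟨m1, m2, -, m4, m5, -, -, m8, -, m10, -, -, -, -, m15⟩ := hNMM p r L D hD0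
  obtain ⟨n1, n2, -, n4, n5, -, -, n8, -, n10, -, -, -, -, n15⟩ := hNMM p r' L D hD0
  -- the part of `I` prime to `t2`
  have t2p : Prime (t2 p r D) := Ideal.prime_of_isPrime m10 m8.isPrime
  obtain ⟨k, I₁, hk1, hk2⟩ := WfDvdMonoid.max_power_factor (a₀ := I) hI t2p.irreducible
  have hI₁ : I₁ ≠ ⊥ := by
    rintro rfl
    exact hI (by rw [hk2]; exact Ideal.mul_bot _)
  have hw1 : nw p r D I₁ ≠ 0 := by
    intro h0
    exact hk1 (Ideal.dvd_iff_le.2 (((m4 I₁ hI₁).2).1 h0))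
  -- powers
  have pw : ∀ (q : ℕ) (K : Ideal (BQ p r' D)), K ≠ ⊥ →
      nm p r' D (K ^ q) = nm p r' D K ^ q ∧ K ^ q ≠ ⊥ := by
    intro q K hK
    induction q with
    | zero =>
      rw [pow_zero, pow_zero, Ideal.one_eq_top]
      exact ⟨n2, top_ne_bot⟩
    | succ q ih =>
      refine ⟨?_, pow_ne_zero _ hK⟩
      rw [pow_succ, (n1 _ _ ih.2 hK).1, ih.1, pow_succ]
  have pw0 : ∀ (q : ℕ) (K : Ideal (BQ p r D)), K ≠ ⊥ →
      nm p r D (K ^ q) = nm p r D K ^ q ∧ K ^ q ≠ ⊥ := by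
    intro q K hK
    induction q with
    | zero =>
      rw [pow_zero, pow_zero, Ideal.one_eq_top]
      exact ⟨m2, top_ne_bot⟩
    | succ q ih =>
      refine ⟨?_, pow_ne_zero _ hK⟩
      rw [pow_succ, (m1 _ _ ih.2 hK).1, ih.1, pow_succ]
  have hnI : nm p r D I = D ^ k * nm p r D I₁ := by
    rw [hk2, (m1 _ _ (pw0 k _ m10).2 hI₁).1, (pw0 k _ m10).1, m5]
  have hnI0 : nm p r D I ≠ 0 := by
    rw [hnm]
    exact mul_ne_zero ha (pow_ne_zero _ hs)
  have hn1 : nm p r D I₁ ≠ 0 := by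
    intro h0
    exact hnI0 (by rw [hnI, h0, mul_zero])
  obtain ⟨ν, hν⟩ := m15 I₁ hI₁
  have hν0 : ν ≠ 0 := by
    rintro rfl
    rw [zero_pow hp0] at hν
    exact mul_ne_zero hn1 (pow_ne_zero _ hw1) hν
  -- the ideal on the other curve
  set J₁ : Ideal (BQ p r' D) := I₁.map (se p h h' D : BQ p r D →+* BQ p r' D) with hJ₁
  have hJ₁0 : J₁ ≠ ⊥ := by
    intro h0
    have h2 : Function.Injective (se p h h' D : BQ p r D →+* BQ p r' D) := (se p h h' D).injective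
    rw [hJ₁, Ideal.map_eq_bot_iff_of_injective h2] at h0
    exact hI₁ h0
  have hJn : nm p r' D J₁ = nw p r D I₁ := nm_se p h h' D I₁
  have hp1 : 1 ≤ p := (Fact.out (p := p.Prime)).one_lt.le
  refine ⟨ha, J₁ ^ (r * (p - 1)) * t2 p r' D ^ k,
    mul_ne_zero (pow_ne_zero _ hJ₁0) (pow_ne_zero _ n10),
    s * ν ^ (p - 1) / nm p r D I₁,
    div_ne_zero (mul_ne_zero hs (pow_ne_zero _ hν0)) hn1, ?_⟩
  rw [(n1 _ _ (pw _ _ hJ₁0).2 (pw _ _ n10).2).1, (pw _ _ hJ₁0).1, (pw _ _ n10).1, n5, hJn]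
  have e1 : nw p r D I₁ ^ (r * (p - 1)) = (ν ^ p / nm p r D I₁) ^ (p - 1) := by
    rw [pow_mul]
    rw [← hν]
    rw [mul_div_cancel_left₀ _ hn1]
  have e2 : a = D ^ k * nm p r D I₁ / s ^ p := by
    rw [← hnI, hnm]
    field_simp
  have e3 : nm p r D I₁ ^ p = nm p r D I₁ ^ (p - 1) * nm p r D I₁ := by
    rw [← pow_succ, Nat.sub_add_cancel hp1]
  have hq : nm p r D I₁ ^ (p - 1) ≠ 0 := pow_ne_zero _ hn1
  rw [e1, e2, div_pow, div_pow, mul_pow, e3, ← pow_mul, ← pow_mul, mul_comm p (p - 1)]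
  field_simp

end Pool.Agent.Q79.CF
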